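import Pool.Agent.W78.GM.Basic
import Pool.Agent.H970R2.X.Cell
import Pool.Agent.H970R2.X.Rap

/-!
Project GM (helper78), task GM-Q (helper85): `|P_v(k)| ≤ (1 - c') m_v` for the Gaussian primes.
-/

set_option autoImplicit false

namespace Pool.Agent.W85.GM

open Finset Filter
open Pool.Agent.H376R2.MR Pool.Agent.H970R2.X Pool.Agent.W78.GM

theorem gp_ne_zero {p : ℕ} (hp : p.Prime) (h4 : P1 4 p) : gp p ≠ 0 :=
  ne_zero_of_nm hp (gp_nm hp h4)

theorem cellg_of (hS : S_SELG) : S_CELLG := by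
  classical
  obtain ⟨C, hC, hsel'⟩ := hS
  obtain ⟨c, hc, hR⟩ : ∃ c : ℝ, 0 < c ∧ Rich (P1 4) c := rich_ap 4 (by norm_num)
  set R : ℕ := ⌈(2 * C + 1) / c⌉₊ + 1 with hRdef
  have hR1 : 1 ≤ R := by omega
  have hRpos : (0 : ℝ) < R := by exact_mod_cast hR1
  have hRge1 : (1 : ℝ) ≤ R := by exact_mod_cast hR1
  have hRc : 2 * C + 1 ≤ R * c := by
    have h1 : (2 * C + 1) / c ≤ (⌈(2 * C + 1) / c⌉₊ : ℝ) := Nat.le_ceil _
    have h2 : (2 * C + 1) / c ≤ (R : ℝ) := by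
      rw [hRdef]
      push_cast
      linarith
    exact (div_le_iff₀ hc).1 h2
  set c' : ℝ := 1 / (4 * (R : ℝ) ^ 2) with hc'
  have hc'pos : 0 < c' := by positivity
  refine ⟨c', hc'pos, ?_, ?_⟩
  · rw [hc', div_le_one (by positivity)]
    nlinarith
  intro M H hH
  obtain ⟨v₀, hsel⟩ := hsel' M H R hH hR1
  obtain ⟨v₁, hv₁⟩ := hR.2 H hH
  refine ⟨max (max v₀ v₁) 1, ?_⟩
  intro v hv k hk1 hk2
  have hv0 : v₀ ≤ v := le_trans (le_trans (le_max_left _ _) (le_max_left _ _)) hv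
  have hv1 : v₁ ≤ v := le_trans (le_trans (le_max_right _ _) (le_max_left _ _)) hv
  have hv2 : 1 ≤ v := le_trans (le_max_right _ _) hv
  have hvpos : (0 : ℝ) < v := by exact_mod_cast hv2
  by_contra hcon
  push Not at hcon
  -- the phase
  set PP0 := PG H v k with hP
  obtain ⟨φ, hφ⟩ : ∃ φ : ℝ, ‖PP0‖ =
      ∑ p ∈ cellP (P1 4) H v, Real.cos (k * ang (gp p) + φ) / (p : ℝ) := by
    refine ⟨-Complex.arg PP0, ?_⟩
    have h1 : (‖PP0‖ : ℂ) = PP0 * Complex.exp (-(Complex.arg PP0 : ℝ) * Complex.I) := by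
      have h0 := Complex.norm_mul_exp_arg_mul_I PP0
      calc (‖PP0‖ : ℂ) = (‖PP0‖ : ℂ) * Complex.exp ((Complex.arg PP0 : ℝ) * Complex.I) *
            Complex.exp (-(Complex.arg PP0 : ℝ) * Complex.I) := by
            rw [mul_assoc, ← Complex.exp_add]; simp
        _ = PP0 * Complex.exp (-(Complex.arg PP0 : ℝ) * Complex.I) := by rw [h0]
    have h2 : ‖PP0‖ = (PP0 * Complex.exp (-(Complex.arg PP0 : ℝ) * Complex.I)).re := by
      rw [← h1, Complex.ofReal_re]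
    set A : ℝ := Complex.arg PP0 with hA
    rw [h2, hP]
    unfold PG
    rw [Finset.sum_mul, Complex.re_sum]
    refine Finset.sum_congr rfl fun p hp => ?_
    have hp' : p.Prime ∧ P1 4 p := by
      rw [cellP, mem_filter, cell, mem_filter] at hp
      exact ⟨hp.1.2.1, hp.2⟩
    rw [ps_eq_exp (gp_ne_zero hp'.1 hp'.2), div_mul_eq_mul_div, ← Complex.exp_add]
    have h3 : ((k * ang (gp p) : ℝ) : ℂ) * Complex.I + -(A : ℂ) * Complex.I =
        ((k * ang (gp p) + -A : ℝ) : ℂ) * Complex.I := by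
      push_cast; ring
    rw [h3, show ((p : ℕ) : ℂ) = (((p : ℕ) : ℝ) : ℂ) by push_cast; rfl, Complex.div_ofReal_re,
      Complex.exp_ofReal_mul_I_re]
  have hs := hsel v hv0 k hk1 hk2 φ
  have hm := hv₁ v hv1
  have hmG : mG H v = mmp (P1 4) H v := rfl
  rw [hmG] at hcon
  have hmpos : 0 < mmp (P1 4) H v := lt_of_lt_of_le (by positivity) hm
  have hlow : R * mmp (P1 4) H v - 2 * (R : ℝ) ^ 3 * (mmp (P1 4) H v - ‖PP0‖) ≤
      ∑ p ∈ cellP (P1 4) H v, FR R (k * ang (gp p) + φ) / (p : ℝ) := by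
    rw [hφ]
    unfold mmp
    rw [← Finset.sum_sub_distrib, Finset.mul_sum, Finset.mul_sum, ← Finset.sum_sub_distrib]
    refine Finset.sum_le_sum fun p _ => ?_
    have h := xcell_FR R hR1 (k * ang (gp p) + φ)
    have hp0 : (0 : ℝ) ≤ 1 / (p : ℝ) := by positivity
    have := mul_le_mul_of_nonneg_right h hp0
    calc R * (1 / (p : ℝ)) - 2 * (R : ℝ) ^ 3 *
          (1 / (p : ℝ) - Real.cos (k * ang (gp p) + φ) / (p : ℝ))
        = (R - 2 * (R : ℝ) ^ 3 * (1 - Real.cos (k * ang (gp p) + φ))) * (1 / (p : ℝ)) := by ring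
      _ ≤ FR R (k * ang (gp p) + φ) * (1 / (p : ℝ)) := this
      _ = FR R (k * ang (gp p) + φ) / (p : ℝ) := by ring
  have h4 : 2 * (R : ℝ) ^ 3 * (mmp (P1 4) H v - ‖PP0‖) ≤ (R / 2) * mmp (P1 4) H v := by
    have h5 : mmp (P1 4) H v - ‖PP0‖ ≤ c' * mmp (P1 4) H v := by linarith
    have h6 : 2 * (R : ℝ) ^ 3 * c' = R / 2 := by
      rw [hc']
      field_simp
      norm_num
    calc 2 * (R : ℝ) ^ 3 * (mmp (P1 4) H v - ‖PP0‖) ≤ 2 * (R : ℝ) ^ 3 * (c' * mmp (P1 4) H v) :=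
          mul_le_mul_of_nonneg_left h5 (by positivity)
      _ = (2 * (R : ℝ) ^ 3 * c') * mmp (P1 4) H v := by ring
      _ = (R / 2) * mmp (P1 4) H v := by rw [h6]
  have h7 : (R / 2) * mmp (P1 4) H v ≤ C / v := by linarith
  have h8 : (R / 2) * (c / v) ≤ C / v :=
    (mul_le_mul_of_nonneg_left hm (by positivity)).trans h7
  have h9 : (R / 2) * (c / v) = (R * c / 2) / v := by ring
  rw [h9, div_le_div_iff_of_pos_right hvpos] at h8
  linarith

end Pool.Agent.W85.GM
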