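import Pool.Agent.W477.GM.Stms

/-!
# Project GM, GM-SYSC: the flips form a symmetric system (helper85)
-/

set_option maxHeartbeats 1000000
set_option linter.unusedSectionVars false

namespace Pool.Agent.W477.GM.SYSC85

open Pool.Agent.W477.GM

section

variable {C : Type} {L : C → ℕ∞}

theorem fl_len (z : J → Ordinal.{0} → Bool) (p : Cn C L) (j : J) : (fl z p).len j = p.len j := rfl

theorem fl_bit (z : J → Ordinal.{0} → Bool) (p : Cn C L) (j : J) (o : Ordinal.{0})
    (h : o < p.len j) : (fl z p).bit j o = xor (p.bit j o) (z j o) := if_pos h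

theorem fl_fl (z w : J → Ordinal.{0} → Bool) (p : Cn C L) :
    fl z (fl w p) = fl (fun j o => xor (z j o) (w j o)) p := by
  refine Cn.ext' rfl (fun _ => rfl) (fun j o ho => ?_)
  have ho' : o < p.len j := ho
  rw [fl_bit z (fl w p) j o ho', fl_bit w p j o ho', fl_bit _ p j o ho']
  cases p.bit j o <;> cases z j o <;> cases w j o <;> rfl

theorem fl_zero (z : J → Ordinal.{0} → Bool) (p : Cn C L)
    (h : ∀ j o, o < p.len j → z j o = false) : fl z p = p := by
  refine Cn.ext' rfl (fun _ => rfl) (fun j o ho => ?_)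
  have ho' : o < p.len j := ho
  rw [fl_bit z p j o ho', h j o ho']
  cases p.bit j o <;> rfl

theorem fl_self (z : J → Ordinal.{0} → Bool) (p : Cn C L) : fl z (fl z p) = p := by
  rw [fl_fl]
  apply fl_zero
  intro j o _
  cases z j o <;> rfl

theorem rs_len_pos (K : J → Prop) (p : Cn C L) (j : J) (h : K j) : (rs K p).len j = p.len j :=
  if_pos h

theorem rs_len_neg (K : J → Prop) (p : Cn C L) (j : J) (h : ¬ K j) : (rs K p).len j = 0 :=
  if_neg h

theorem rs_bit_pos (K : J → Prop) (p : Cn C L) (j : J) (o : Ordinal.{0}) (h : K j) :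
    (rs K p).bit j o = p.bit j o := if_pos h

theorem rs_fl (K : J → Prop) (z : J → Ordinal.{0} → Bool) (p : Cn C L) :
    rs K (fl z p) = fl z (rs K p) := by
  refine Cn.ext' rfl (fun _ => rfl) (fun j o ho => ?_)
  by_cases hK : K j
  · rw [rs_len_pos K _ j hK] at ho
    have ho' : o < p.len j := ho
    have ho2 : o < (rs K p).len j := by
      rw [rs_len_pos K _ j hK]
      exact ho'
    rw [rs_bit_pos K _ j o hK, fl_bit z p j o ho', fl_bit z (rs K p) j o ho2,
      rs_bit_pos K _ j o hK]
  · rw [rs_len_neg K _ j hK] at ho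
    exact absurd ho (not_lt.2 zero_le)

theorem finS_xor (z w : J → Ordinal.{0} → Bool) (hz : FinS z) (hw : FinS w) :
    FinS (fun j o => xor (z j o) (w j o)) := by
  refine (hz.union hw).subset ?_
  rintro j ⟨o, ho⟩
  by_cases h : z j o = true
  · exact Or.inl ⟨o, h⟩
  · right
    refine ⟨o, ?_⟩
    have h1 : z j o = false := by
      cases h2 : z j o
      · rfl
      · exact absurd h2 h
    simp only [h1] at ho
    simpa using ho

theorem finS_zero : FinS (fun _ _ => false) := by
  refine Set.Finite.subset Set.finite_empty ?_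
  rintro j ⟨o, ho⟩
  exact absurd ho (by simp)

variable [PartialOrder C] [OrderTop C]

theorem fl_le (z : J → Ordinal.{0} → Bool) {p q : Cn C L} (h : p ≤ q) : fl z p ≤ fl z q := by
  refine ⟨h.1, fun j => ⟨(h.2 j).1, fun o ho => ?_⟩⟩
  have ho' : o < q.len j := ho
  rw [fl_bit z p j o (lt_of_lt_of_le ho' (h.2 j).1), fl_bit z q j o ho', (h.2 j).2 o ho']

/-- the flip as an order isomorphism -/
noncomputable def flIso (z : J → Ordinal.{0} → Bool) : Cn C L ≃o Cn C L where
  toFun := fl z
  invFun := fl z
  left_inv := fl_self z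
  right_inv := fl_self z
  map_rel_iff' := by
    intro p q
    constructor
    · intro h
      have h1 := fl_le z h
      have h2 : fl z (fl z p) ≤ fl z (fl z q) := h1
      rwa [fl_self, fl_self] at h2
    · intro h
      exact fl_le z h

theorem inv_apply (g : Cn C L ≃o Cn C L) (z : J → Ordinal.{0} → Bool)
    (hg : ∀ p, g p = fl z p) (p : Cn C L) : g⁻¹ p = fl z p := by
  show g.symm p = fl z p
  rw [OrderIso.symm_apply_eq, hg, fl_self]

theorem mul_apply' (g h : Cn C L ≃o Cn C L) (z w : J → Ordinal.{0} → Bool)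
    (hg : ∀ p, g p = fl z p) (hh : ∀ p, h p = fl w p) (p : Cn C L) :
    (g * h) p = fl (fun j o => xor (z j o) (w j o)) p := by
  show g (h p) = _
  rw [hg, hh, fl_fl]

theorem rs_mono (K : J → Prop) {p q : Cn C L} (h : p ≤ q) : rs K p ≤ rs K q := by
  refine ⟨h.1, fun j => ?_⟩
  by_cases hK : K j
  · rw [rs_len_pos K _ j hK, rs_len_pos K _ j hK]
    refine ⟨(h.2 j).1, fun o ho => ?_⟩
    rw [rs_bit_pos K _ j o hK, rs_bit_pos K _ j o hK]
    exact (h.2 j).2 o ho
  · rw [rs_len_neg K _ j hK, rs_len_neg K _ j hK]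
    exact ⟨le_rfl, fun o ho => absurd ho (not_lt.2 zero_le)⟩

theorem le_rs (K : J → Prop) (p : Cn C L) : p ≤ rs K p := by
  refine ⟨le_rfl, fun j => ?_⟩
  by_cases hK : K j
  · rw [rs_len_pos K _ j hK]
    refine ⟨le_rfl, fun o ho => ?_⟩
    rw [rs_bit_pos K _ j o hK]
  · rw [rs_len_neg K _ j hK]
    exact ⟨zero_le, fun o ho => absurd ho (not_lt.2 zero_le)⟩

theorem rs_rs (a b : Ordinal.{0}) (hab : a ≤ b) (p : Cn C L) :
    rs (fun j => j.1 < b) (rs (fun j => j.1 < a) p) = rs (fun j => j.1 < a) p := by
  have hlen : ∀ j : J, (rs (fun j => j.1 < b) (rs (fun j => j.1 < a) p)).len j =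
      (rs (fun j => j.1 < a) p).len j := by
    intro j
    by_cases h : j.1 < b
    · exact rs_len_pos (fun j => j.1 < b) _ j h
    · have h2 : ¬ j.1 < a := fun h3 => h (lt_of_lt_of_le h3 hab)
      rw [rs_len_neg (fun j => j.1 < b) _ j h, rs_len_neg (fun j => j.1 < a) _ j h2]
  refine Cn.ext' rfl hlen (fun j o ho => ?_)
  by_cases h : j.1 < b
  · exact rs_bit_pos (fun j => j.1 < b) _ j o h
  · rw [rs_len_neg (fun j => j.1 < b) _ j h] at ho
    exact absurd ho (not_lt.2 zero_le)

open Classical in
/-- the common extension -/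
noncomputable def com (hL : ∀ c d : C, c ≤ d → L d ≤ L c) (p r : Cn C L) (h : r.c ≤ p.c) :
    Cn C L where
  c := r.c
  len j := max (p.len j) (r.len j)
  bit j o := if o < p.len j then p.bit j o else r.bit j o
  fin := by
    refine (p.fin.union r.fin).subset ?_
    intro j hj
    by_cases h1 : p.len j = 0
    · right
      intro h2
      apply hj
      show max (p.len j) (r.len j) = 0
      rw [h1, h2, max_self]
    · exact Or.inl h1
  lt j := max_lt (p.lt j) (r.lt j)
  off j o ho := by
    have h1 : ¬ o < p.len j := not_lt.2 (le_trans (le_max_left _ _) ho)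
    rw [if_neg h1]
    exact r.off j o (le_trans (le_max_right _ _) ho)
  sup j hj := by
    by_cases h1 : r.len j = 0
    · have h2 : p.len j ≠ 0 := by
        intro h2
        apply hj
        rw [h1, h2, max_self]
      exact lt_of_lt_of_le (p.sup j h2) (hL _ _ h)
    · exact r.sup j h1

end

theorem sysc_holds : P_SYSC := by
  intro hK C _ _ L hC
  refine
    { one := ⟨fun _ _ => false, finS_zero, fun p => (fl_zero _ p (fun _ _ _ => rfl)).symm⟩
      mul := ?_
      inv := ?_
      comm := ?_
      ne := ⟨(∅ : Finset (Ordinal.{0} × ℕ))⟩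
      fsub := ?_
      fone := fun e => ⟨fun _ _ => false, finS_zero, fun _ _ _ => rfl,
        fun p => (fl_zero _ p (fun _ _ _ => rfl)).symm⟩
      fmul := ?_
      finv := ?_
      dir := ?_
      le_rho := fun a p => le_rs _ p
      mono := fun a p q h => rs_mono _ h
      rho_rho := fun a b p hab => rs_rs a b hab p
      small := ?_
      rho_act := ?_
      hom := ?_ }
  · rintro g h ⟨z, hz, hg⟩ ⟨w, hw, hh⟩
    exact ⟨_, finS_xor z w hz hw, mul_apply' g h z w hg hh⟩
  · rintro g ⟨z, hz, hg⟩
    exact ⟨z, hz, inv_apply g z hg⟩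
  · rintro g h ⟨z, hz, hg⟩ ⟨w, hw, hh⟩
    apply RelIso.ext
    intro p
    rw [mul_apply' g h z w hg hh, mul_apply' h g w z hh hg]
    congr 1
    funext j o
    cases z j o <;> cases w j o <;> rfl
  · rintro e g ⟨z, hz, -, hg⟩
    exact ⟨z, hz, hg⟩
  · rintro e g h ⟨z, hz, hze, hg⟩ ⟨w, hw, hwe, hh⟩
    refine ⟨_, finS_xor z w hz hw, fun j hj o => ?_, mul_apply' g h z w hg hh⟩
    simp only [hze j hj o, hwe j hj o]
    rfl
  · rintro e g ⟨z, hz, hze, hg⟩
    exact ⟨z, hz, hze, inv_apply g z hg⟩
  · classical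
    intro e e'
    refine ⟨@Union.union (Finset (Ordinal.{0} × ℕ)) _ e e', ?_⟩
    rintro g ⟨z, hz, hze, hg⟩
    exact ⟨⟨z, hz, fun j hj => hze j (Finset.mem_union_left _ hj), hg⟩,
      ⟨z, hz, fun j hj => hze j (Finset.mem_union_right _ hj), hg⟩⟩
  · intro a
    obtain ⟨K, e, he, -⟩ := hK.stage C L hC.cnt a
    have h1 : ∀ p : {p : Cn C L // (sysC C L).rho a p = p}, ∃ k, e k = p.1 := fun p => he p.1 p.2
    choose f hf using h1
    have h2 : Function.Injective f := by
      intro p q hpq
      apply Subtype.ext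
      rw [← hf p, ← hf q, hpq]
    exact small_of_injective h2
  · rintro g ⟨z, hz, hg⟩ a p
    rw [hg, hg]
    exact rs_fl _ z p
  · classical
    intro a p q h
    obtain ⟨z, hzd⟩ : ∃ z : J → Ordinal.{0} → Bool, z = fun (j : J) (o : Ordinal.{0}) =>
      decide (a ≤ j.1 ∧ o < p.len j ∧ o < q.len j ∧ p.bit j o ≠ q.bit j o) := ⟨_, rfl⟩
    have hz : ∀ j o, z j o =
        decide (a ≤ j.1 ∧ o < p.len j ∧ o < q.len j ∧ p.bit j o ≠ q.bit j o) := by
      intro j o
      rw [hzd]
    have hfin : FinS z := by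
      refine p.fin.subset ?_
      rintro j ⟨o, ho⟩
      rw [hz, decide_eq_true_eq] at ho
      intro h0
      have h1 := ho.2.1
      rw [h0] at h1
      exact absurd h1 (not_lt.2 zero_le)
    have hqp : q.c ≤ p.c := h.1
    refine ⟨flIso z, ⟨z, hfin, fun _ => rfl⟩, ?_, com hC.anti p (fl z q) hqp, ?_, ?_⟩
    · intro u hu
      show fl z u = u
      apply fl_zero
      intro j o ho
      rw [hz, decide_eq_false_iff_not]
      rintro ⟨h1, -⟩
      have h2 : (rs (fun j : J => j.1 < a) u).len j = u.len j := congrArg (fun v => v.len j) hu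
      rw [rs_len_neg (fun j : J => j.1 < a) u j (not_lt.2 h1)] at h2
      rw [← h2] at ho
      exact absurd ho (not_lt.2 zero_le)
    · refine ⟨hqp, fun j => ⟨le_max_left _ _, fun o ho => ?_⟩⟩
      exact if_pos ho
    · refine ⟨le_rfl, fun j => ⟨le_max_right _ _, fun o ho => ?_⟩⟩
      show (if o < p.len j then p.bit j o else (fl z q).bit j o) = (fl z q).bit j o
      have ho' : o < q.len j := ho
      by_cases h1 : o < p.len j
      · rw [if_pos h1, fl_bit z q j o ho']
        by_cases h2 : j.1 < a
        · have h3 := (h.2 j).2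
          have h4 : z j o = false := by
            rw [hz, decide_eq_false_iff_not]
            rintro ⟨h5, -⟩
            exact absurd h2 (not_lt.2 h5)
          have h5 : o < (rs (fun j : J => j.1 < a) p).len j := by
            rw [rs_len_pos (fun j : J => j.1 < a) p j h2]
            exact h1
          have h6 : (rs (fun j : J => j.1 < a) q).bit j o = (rs (fun j : J => j.1 < a) p).bit j o :=
            h3 o h5
          rw [rs_bit_pos (fun j : J => j.1 < a) q j o h2,
            rs_bit_pos (fun j : J => j.1 < a) p j o h2] at h6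
          rw [h4, h6]
          cases p.bit j o <;> rfl
        · by_cases h3 : p.bit j o = q.bit j o
          · have h4 : z j o = false := by
              rw [hz, decide_eq_false_iff_not]
              rintro ⟨-, -, -, h5⟩
              exact h5 h3
            rw [h4, h3]
            cases q.bit j o <;> rfl
          · have h4 : z j o = true := by
              rw [hz, decide_eq_true_eq]
              exact ⟨not_lt.1 h2, h1, ho', h3⟩
            rw [h4]
            revert h3
            cases p.bit j o <;> cases q.bit j o <;> simp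
      · rw [if_neg h1]

end Pool.Agent.W477.GM.SYSC85
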